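import Pool.Agent.W813.NC.Stm

set_option autoImplicit false

/-! Project NC, part LIF (owner helper813). -/

namespace Pool.Agent.W431.NC

open Pool.Agent.W813.NC

universe v v'

theorem lif (R : Type v) (S : Type v') [Ring R] [Ring S] (φ : R →+* S) (I : Set S) :
    S_LIF R S φ I := by
  intro hinj h0 hadd hr hl hnil x e he hx
  have he' : IsIdempotentElem e := he
  have hneg : ∀ a ∈ I, -a ∈ I := fun a ha => by
    have := hl a ha (-1)
    simpa using this
  have hmul : ∀ a b c d : S, a - b ∈ I → c - d ∈ I → a * c - b * d ∈ I := by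
    intro a b c d h1 h2
    have h3 := hadd _ (hr _ h1 c) _ (hl _ h2 b)
    have h4 : (a - b) * c + b * (c - d) = a * c - b * d := by noncomm_ring
    rwa [h4] at h3
  have hpow : ∀ (a b : S), a - b ∈ I → ∀ k : ℕ, a ^ k - b ^ k ∈ I := by
    intro a b h k
    induction k with
    | zero => simpa using h0
    | succ k ih => rw [pow_succ, pow_succ]; exact hmul _ _ _ _ ih h
  have hone : ∀ a b : S, a - b ∈ I → (1 - a) - (1 - b) ∈ I := by
    intro a b h
    have := hneg _ h
    have h4 : -(a - b) = (1 - a) - (1 - b) := by abel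
    rwa [h4] at this
  -- nilpotency
  have hy : φ (x - x ^ 2) ∈ I := by
    have h1 : φ x * φ x - e * e ∈ I := hmul _ _ _ _ hx hx
    have h2 := hadd _ hx _ (hneg _ h1)
    have h3 : (φ x - e) + -(φ x * φ x - e * e) = φ (x - x ^ 2) := by
      rw [he, map_sub, map_pow, pow_two]
      abel
    rwa [h3] at h2
  obtain ⟨n, hn⟩ := hnil _ hy
  have hn' : (x - x ^ 2) ^ (n + 1) = 0 := by
    apply hinj
    rw [map_pow, map_zero, pow_succ, hn, zero_mul]
  refine ⟨1 - (1 - x ^ (n + 1)) ^ (n + 1), isIdempotentElem_one_sub_one_sub_pow_pow _ _ hn', ?_⟩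
  have h1 := hpow _ _ hx (n + 1)
  rw [he'.pow_succ_eq] at h1
  have h2 := hpow _ _ (hone _ _ h1) (n + 1)
  rw [he'.one_sub.pow_succ_eq] at h2
  have h3 := hone _ _ h2
  rw [sub_sub_cancel] at h3
  simpa only [map_sub, map_one, map_pow] using h3

end Pool.Agent.W431.NC
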